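import Mathlib
import Pool.Agent.N282.FEf

set_option autoImplicit false

namespace Pool.Agent.Results.MP_12983e_an.Classification

/-- Complete description of the continuous solutions of `f (x + f x) = f x + f (f x)`:
they are the maps equal to `a * x` on `[0, ∞)` and to `b * x` on `(-∞, 0)` with `a, b ≥ 0`,
and the maps `c * x` with `c < 0`. -/
theorem result (f : ℝ → ℝ) (hf : Continuous f) :
    (∀ x, f (x + f x) = f x + f (f x)) ↔
      ((∃ a b : ℝ, 0 ≤ a ∧ 0 ≤ b ∧ ∀ x, f x = if 0 ≤ x then a * x else b * x) ∨
        ∃ c : ℝ, c < 0 ∧ ∀ x, f x = c * x) :=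
  Pool.Agent.N282.FE.classification f hf

end Pool.Agent.Results.MP_12983e_an.Classification
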